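import Pool.Agent.V11151.HVLattice

/-!
# A rational inscribed realization of the dual cyclic polytope with seven facets in dimension four
-/

namespace Pool.Agent.Results.MP_6ae079_co.RationalInscribed

open Pool.Agent.V11151.Poly Pool.Agent.V11151.Facets Pool.Agent.V11151.Explicit
  Pool.Agent.V11151.Enum3 Pool.Agent.V11151.Enum4 Pool.Agent.V11151.Lattice
  Pool.Agent.V11151.HVLattice

/-- The cyclic polytope `C_4(7)`: the convex hull of the seven points `(t, t², t³, t⁴)` with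
`t = -3, -2, -1, 0, 1, 2, 3`. -/
noncomputable def cyclic : Set (Fin 4 → ℝ) :=
  convexHull ℝ (Set.range fun (i : Fin 7) (k : Fin 4) => ((i.val : ℝ) - 3) ^ (k.val + 1))

/-- numerators of the coordinates of the vertices -/
def V : Fin 14 → Fin 4 → ℤ := ![![17903, -8090, -24270, 12400], ![12997, -8470, -10070, 9740], ![-5927, -4630, 9120, 13610], ![-3151, 400, 1200, 2800], ![9907, -5488, -7260, 7604], ![5, 16, 48, 112], ![-5927, 8630, 2880, 14390], ![3155, 502, -12300, 3514], ![9907, 6368, 9900, -1444], ![12997, 9470, 13070, -2740], ![2453, 112, -5800, 784], ![17903, 8290, 24870, -11000], ![2453, -512, 4600, -3584], ![3155, -902, 11100, -6314]]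

/-- denominators of the coordinates of the vertices -/
def W : Fin 14 → ℤ := ![33597, 20903, 18027, 4401, 15453, 123, 18027, 13185, 15453, 20903, 6347, 33597, 6347, 13185]

/-- facet normals -/
def la : Fin 7 → Fin 4 → ℤ := ![![-5260, -8993, -2409, -4451], ![-272, -301, -513, 1013], ![619, 686, -204, 512], ![5657, -407, -1221, -2849], ![619, -562, 576, 356], ![-272, 479, 1047, 233], ![-5260, 7387, -2409, -6791]]

/-- facet bounds -/
def lb : Fin 7 → ℤ := ![-540, 672, 501, 2943, 501, 672, -540]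

/-- boundedness certificate -/
def bp : Fin 4 → Fin 7 → ℤ := ![![2572161229348200, 0, 33313636567203300, 0, 33313636567203300, 0, 2572161229348200], ![0, 49385522831130135, 0, 2405055921742710, 96921874092839850, 0, 11438627224847715], ![299780373882150, 0, 0, 0, 13197348857221200, 8811088649892900, 797661228750750], ![0, 10217215812429990, 3694167051285690, 0, 2666849512718790, 4258774088741970, 0]]

/-- boundedness certificate -/
def bm : Fin 4 → Fin 7 → ℤ := ![![919298635823925, 8294346118725975, 0, 0, 0, 8294346118725975, 919298635823925], ![1338955310407300, 1112836741071940, 3896015702258210, 0, 7970860753822510, 0, 0], ![2594239750121670, 1434037110149700, 27951451936707600, 0, 0, 0, 620948587304430], ![2450950416686898, 0, 19418270328406530, 0, 32362471314349470, 0, 3642638761424502]]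

/-- facet normals of the cyclic polytope -/
def ca : Fin 14 → Fin 4 → ℤ := ![![-6, -11, -6, -1], ![6, -1, -4, -1], ![8, 7, -2, -1], ![0, 13, 0, -1], ![2, 1, -2, -1], ![0, 5, 0, -1], ![-8, 7, 2, -1], ![-27, -7, 3, 1], ![-2, 1, 2, -1], ![-6, -1, 4, -1], ![-9, -9, 1, 1], ![6, -11, 6, -1], ![9, -9, -1, 1], ![27, -7, -3, 1]]

/-- facet bounds of the cyclic polytope -/
def cb : Fin 14 → ℤ := ![0, 0, 12, 36, 0, 4, 12, 18, 0, 0, 0, 0, 0, 18]

/-- boundedness certificate -/
def cp : Fin 4 → Fin 14 → ℤ := ![![0, 0, 0, 4, 0, 0, 12, 0, 0, 0, 0, 0, 12, 4], ![0, 0, 0, 30, 0, 0, 0, 0, 0, 0, 15, 0, 15, 0], ![0, 0, 0, 90, 0, 0, 0, 0, 0, 0, 60, 18, 48, 0], ![0, 0, 0, 270, 0, 0, 0, 0, 0, 0, 195, 0, 195, 0]]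

/-- boundedness certificate -/
def cm : Fin 4 → Fin 14 → ℤ := ![![0, 0, 12, 4, 0, 0, 0, 4, 0, 0, 12, 0, 0, 0], ![0, 0, 0, 0, 0, 60, 0, 30, 0, 0, 0, 0, 0, 30], ![18, 0, 0, 90, 0, 0, 0, 0, 0, 0, 48, 0, 60, 0], ![0, 0, 0, 0, 0, 420, 0, 150, 0, 0, 0, 0, 0, 150]]


/-- the vertices of the cyclic polytope -/
def CV : Fin 7 → Fin 4 → ℤ := fun i k => ((i.val : ℤ) - 3) ^ (k.val + 1)

lemma check_P : ∀ i j : Fin 7, i < j → ∀ k, j < k → ∀ l, k < l → Check4 la lb V W i j k l := by
  decide +kernel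

lemma check_C : ∀ i j : Fin 14, i < j → ∀ k, j < k → ∀ l, k < l →
    Check4 ca cb CV (fun _ => 1) i j k l := by
  decide +kernel

lemma sub_P : PH la lb ⊆ convexHull ℝ (Set.range (hpt V W)) := by
  refine PH_sub4 la lb V W (by decide +kernel) 14183145937454621400 (by norm_num) bp bm ?_ ?_ ?_ ?_ check_P
  · decide +kernel
  · decide +kernel
  · decide +kernel
  · decide +kernel

lemma sub_C : PH ca cb ⊆ convexHull ℝ (Set.range (hpt CV (fun _ => 1))) := by
  refine PH_sub4 ca cb CV (fun _ => 1) (by decide +kernel) 120 (by norm_num) cp cm ?_ ?_ ?_ ?_ check_C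
  · decide +kernel
  · decide +kernel
  · decide +kernel
  · decide +kernel

/-- the polytope -/
noncomputable def Q : Set (Fin 4 → ℝ) := convexHull ℝ (Set.range (hpt V W))

/-- its face lattice -/
noncomputable def isoP : Faces Q ≃o Closed (fun i j => idot (la j) (V i) = lb j * W i) :=
  facesOf la lb V W (by decide +kernel) (by decide +kernel) sub_P (by decide +kernel)

lemma cyclic_eq : cyclic = convexHull ℝ (Set.range (hpt CV (fun _ => 1))) := by
  unfold cyclic
  congr 2
  funext i k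
  simp [hpt, CV]

/-- the face lattice of the cyclic polytope -/
noncomputable def isoC : Faces (convexHull ℝ (Set.range (hpt CV (fun _ => 1)))) ≃o
    Closed (fun i j => idot (ca j) (CV i) = cb j * 1) :=
  facesOf ca cb CV (fun _ => 1) (by decide +kernel) (by decide +kernel) sub_C (by decide +kernel)

lemma incidence : ∀ (i : Fin 7) (j : Fin 14), idot (la i) (V j) = lb i * W j ↔
    idot (ca j) (CV i) = cb j * 1 := by
  decide +kernel

/-- the duality between the two face lattices -/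
noncomputable def duality : Faces Q ≃o
    (Faces (convexHull ℝ (Set.range (hpt CV (fun _ => 1)))))ᵒᵈ :=
  (isoP.trans (dualIso _)).trans
    (((relIso (fun (i : Fin 7) (j : Fin 14) => idot (la i) (V j) = lb i * W j)
      (fun i j => idot (ca j) (CV i) = cb j * 1) incidence).trans isoC.symm).dual)

lemma sphere : ∀ i, V i 0 ^ 2 + V i 1 ^ 2 + V i 2 ^ 2 + V i 3 ^ 2 = W i ^ 2 := by decide +kernel

lemma full : affineSpan ℝ Q = ⊤ := by
  unfold Q
  rw [affineSpan_convexHull, ← interior_convexHull_nonempty_iff_affineSpan_eq_top]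
  have hopen : IsOpen {y : Fin 4 → ℝ | ∀ i, pt (la i) ⬝ᵥ y < (lb i : ℝ)} := by
    have : {y : Fin 4 → ℝ | ∀ i, pt (la i) ⬝ᵥ y < (lb i : ℝ)} =
        ⋂ i, {y : Fin 4 → ℝ | pt (la i) ⬝ᵥ y < (lb i : ℝ)} := by
      ext y; simp
    rw [this]
    apply isOpen_iInter_of_finite
    intro i
    apply isOpen_lt _ continuous_const
    show Continuous fun y : Fin 4 → ℝ => ∑ k, pt (la i) k * y k
    fun_prop
  have hsub : {y : Fin 4 → ℝ | ∀ i, pt (la i) ⬝ᵥ y < (lb i : ℝ)} ⊆
      convexHull ℝ (Set.range (hpt V W)) := by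
    intro y hy
    exact sub_P fun i => (hy i).le
  refine ⟨![0, 0, 0, 1 / 2], interior_maximal hsub hopen ?_⟩
  intro i
  have h : ∀ i, idot (la i) ![0, 0, 0, 1] < lb i * 2 := by decide +kernel
  have h1 := h i
  rw [idot_eq] at h1
  simp only [Fin.sum_univ_four] at h1
  have h2 : ((la i 0 : ℝ) * (![0, 0, 0, 1] : Fin 4 → ℤ) 0 + (la i 1 : ℝ) * (![0, 0, 0, 1] : Fin 4 → ℤ) 1 +
    (la i 2 : ℝ) * (![0, 0, 0, 1] : Fin 4 → ℤ) 2 + (la i 3 : ℝ) * (![0, 0, 0, 1] : Fin 4 → ℤ) 3) <
    (lb i : ℝ) * 2 := by exact_mod_cast h1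
  simp only [dotProduct, Fin.sum_univ_four, pt]
  simp at h2 ⊢
  linarith

/-- There is a four-dimensional polytope combinatorially equivalent to the dual of the cyclic
polytope `C_4(7)` all of whose vertices have rational coordinates and lie on a common sphere. -/
theorem result : ∃ Q : Set (Fin 4 → ℝ),
    (∃ S : Set (Fin 4 → ℝ), S.Finite ∧ Q = convexHull ℝ S) ∧ affineSpan ℝ Q = ⊤ ∧
    Nonempty (Faces Q ≃o (Faces cyclic)ᵒᵈ) ∧
    (∀ v ∈ Q.extremePoints ℝ, ∀ k, ∃ q : ℚ, v k = (q : ℝ)) ∧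
    ∃ (a : Fin 4 → ℝ) (r : ℝ), 0 < r ∧ ∀ v ∈ Q.extremePoints ℝ, ∑ k, (v k - a k) ^ 2 = r ^ 2 := by
  refine ⟨Q, ⟨_, Set.finite_range _, rfl⟩, full, ?_, ?_, 0, 1, one_pos, ?_⟩
  · rw [cyclic_eq]
    exact ⟨duality⟩
  · intro v hv k
    obtain ⟨i, rfl⟩ := extremePoints_convexHull_subset hv
    refine ⟨(V i k : ℚ) / (W i : ℚ), ?_⟩
    unfold hpt
    push_cast
    rfl
  · intro v hv
    obtain ⟨i, rfl⟩ := extremePoints_convexHull_subset hv
    have hW : (W i : ℝ) ≠ 0 := by
      have : ∀ i, W i ≠ 0 := by decide +kernel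
      exact_mod_cast this i
    have h := sphere i
    have h' : (V i 0 : ℝ) ^ 2 + (V i 1 : ℝ) ^ 2 + (V i 2 : ℝ) ^ 2 + (V i 3 : ℝ) ^ 2 =
        (W i : ℝ) ^ 2 := by exact_mod_cast h
    simp only [Fin.sum_univ_four, hpt, Pi.zero_apply, sub_zero]
    field_simp
    linarith

end Pool.Agent.Results.MP_6ae079_co.RationalInscribed
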